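import Pool.Agent.H.MP_394e0d_co.B

namespace Pool.Agent.Results.MP_394e0d_co.Yes
open Pool.Agent.H.MP_394e0d_co

/-- For every prime power `q > 2` there is a `((q+1) × q², q(q+1))`-triple array. -/
theorem result (q : ℕ) (hq : IsPrimePow q) (h2 : 2 < q) :
    ∃ T : Fin (q + 1) → Fin (q ^ 2) → Fin (q * (q + 1)), TA T := by
  obtain ⟨p, n, hp, hn, rfl⟩ := (isPrimePow_nat_iff _).1 hq
  haveI := Fact.mk hp
  have hc : Nat.card (GaloisField p n) = p ^ n := GaloisField.card p n hn.ne'
  have : ∃ T : Option (GaloisField p n) → GaloisField p n × GaloisField p n →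
      Option (GaloisField p n) × GaloisField p n, TA T := by
    by_cases h : p = 2
    · subst h
      obtain ⟨e, h0, h1⟩ : ∃ e : GaloisField 2 n, e ≠ 0 ∧ e ≠ 1 := by
        by_contra hh
        push Not at hh
        have := Set.ncard_le_ncard (s := (Set.univ : Set (GaloisField 2 n))) (t := {0, 1})
          fun x _ => by by_cases h : x = 0 <;> simp [h, hh x]
        rw [Set.ncard_univ, Set.ncard_pair zero_ne_one] at this
        omega
      choose r hr using surjective_frobenius (GaloisField 2 n) 2
      exact build (colE e r) (ca h0 h1 hr) (cb h0 h1 hr) (cc h0 h1 hr)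
    · refine odd_case fun h' => h ?_
      exact (Nat.prime_dvd_prime_iff_eq hp Nat.prime_two).1
        ((CharP.cast_eq_zero_iff (GaloisField p n) p 2).1 (by exact_mod_cast h'))
  obtain ⟨T, hT⟩ := this
  exact ⟨_, hT.equiv (Finite.equivFinOfCardEq (by rw [Finite.card_option, hc])).symm
    (Finite.equivFinOfCardEq (by rw [Nat.card_prod, hc, sq])).symm
    (Finite.equivFinOfCardEq (by rw [Nat.card_prod, Finite.card_option, hc, mul_comm]))⟩

end Pool.Agent.Results.MP_394e0d_co.Yes
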